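import Pool.Agent.helper83.SC.Stmt

/-!
SC project, module AL3: integrability of the selection and continuity of the Monge-Ampere
functional under pointwise convergence of convex functions.
-/

open scoped Pointwise ContDiff
open MeasureTheory Set Filter Topology

namespace Pool.Agent.helper83.SC

/-- Uniform lower bound outside of a ball around the unique minimizer. -/
theorem AL3_gap (hdiag : tendsto_diag_stmt) {m : ℕ} {g : ℕ → E m → ℝ} {f : E m → ℝ}
    (hf : CV f) (hg : ∀ k, CV (g k)) (h : ∀ x, Tendsto (fun k => g k x) atTop (𝓝 (f x)))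
    {p y : E m} (hy : IsArgmin f p y) (hu : ∀ y', IsArgmin f p y' → y' = y) {r : ℝ} (hr : 0 < r) :
    ∀ᶠ k in atTop, ∀ z, r ≤ ‖z - y‖ → g k y - inner ℝ p y < g k z - inner ℝ p z := by
  have hcont : Continuous f := by
    have := hf.continuousOn isOpen_univ
    exact continuousOn_univ.1 this
  -- on the sphere
  have hsph : ∀ᶠ k in atTop, ∀ z ∈ Metric.sphere y r,
      g k y - inner ℝ p y < g k z - inner ℝ p z := by
    by_contra hcon
    rw [not_eventually] at hcon
    have hcon' : ∃ᶠ k in atTop, ∃ z ∈ Metric.sphere y r,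
        g k z - inner ℝ p z ≤ g k y - inner ℝ p y := by
      refine hcon.mono fun k hk => ?_
      push Not at hk
      exact hk
    obtain ⟨σ, hσ, hσ'⟩ := extraction_of_frequently_atTop hcon'
    choose z hz hz' using hσ'
    obtain ⟨z0, hz0, τ, hτ, hlim⟩ := (isCompact_sphere y r).tendsto_subseq hz
    have h1 : Tendsto (fun j => g (σ (τ j)) (z (τ j))) atTop (𝓝 (f z0)) :=
      hdiag (g := fun j => g (σ (τ j))) (fun j => hg _)
        (fun x => (h x).comp ((hσ.comp hτ).tendsto_atTop)) hlim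
    have h2 : Tendsto (fun j => g (σ (τ j)) y) atTop (𝓝 (f y)) :=
      (h y).comp ((hσ.comp hτ).tendsto_atTop)
    have h3 : Tendsto (fun j => (inner ℝ p (z (τ j)) : ℝ)) atTop (𝓝 (inner ℝ p z0)) := by
      have : Continuous (fun z : E m => (inner ℝ p z : ℝ)) := by fun_prop
      exact (this.tendsto z0).comp hlim
    have h4 : f z0 - inner ℝ p z0 ≤ f y - inner ℝ p y :=
      le_of_tendsto_of_tendsto' (h1.sub h3) (h2.sub_const _) (fun j => hz' (τ j))
    have h5 : IsArgmin f p z0 := fun w => h4.trans (hy w)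
    have h6 := hu z0 h5
    rw [h6] at hz0
    simp at hz0
    exact hr.ne hz0
  filter_upwards [hsph] with k hk z hz
  have hz0 : 0 < ‖z - y‖ := hr.trans_le hz
  set l := r / ‖z - y‖
  have hl0 : 0 < l := div_pos hr hz0
  have hl1 : l ≤ 1 := (div_le_one hz0).2 hz
  have hw : (1 - l) • y + l • z ∈ Metric.sphere y r := by
    rw [mem_sphere_iff_norm]
    have : (1 - l) • y + l • z - y = l • (z - y) := by module
    rw [this, norm_smul, Real.norm_eq_abs, abs_of_pos hl0]
    exact div_mul_cancel₀ r hz0.ne'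
  have h1 := hk _ hw
  have h2 := (hg k).2 (mem_univ y) (mem_univ z) (sub_nonneg.2 hl1) hl0.le (by ring)
  rw [inner_add_right, real_inner_smul_right, real_inner_smul_right] at h1
  simp only [smul_eq_mul] at h2
  by_contra hcon
  push Not at hcon
  have h5 := mul_le_mul_of_nonneg_left hcon hl0.le
  linarith

/-- Existence of a minimizer close to `y`. -/
theorem AL3_exists {m : ℕ} {g : E m → ℝ} (hg : CV g) {p y : E m} {r : ℝ} (hr : 0 < r)
    (h : ∀ z, r ≤ ‖z - y‖ → g y - inner ℝ p y < g z - inner ℝ p z) :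
    ∃ z, IsArgmin g p z := by
  have hcont : Continuous g := continuousOn_univ.1 (hg.continuousOn isOpen_univ)
  have hcont' : Continuous (fun z => g z - inner ℝ p z) := by fun_prop
  obtain ⟨z, hz, hmin⟩ := (isCompact_closedBall y r).exists_isMinOn
    ⟨y, Metric.mem_closedBall_self hr.le⟩ hcont'.continuousOn
  refine ⟨z, fun w => ?_⟩
  by_cases hw : ‖w - y‖ ≤ r
  · exact hmin (by rwa [mem_closedBall_iff_norm])
  · push Not at hw
    have h1 := h w hw.le
    have h2 := hmin (Metric.mem_closedBall_self hr.le)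
    simp only [mem_ofPred_eq] at h2
    linarith

/-- Escape of the minimizers when there is none in the limit. -/
theorem AL3_escape (hdiag : tendsto_diag_stmt) {m : ℕ} {g : ℕ → E m → ℝ} {f : E m → ℝ}
    (hg : ∀ k, CV (g k)) (h : ∀ x, Tendsto (fun k => g k x) atTop (𝓝 (f x)))
    {p : E m} (hy : ∀ y, ¬ IsArgmin f p y) (R : ℝ) :
    ∀ᶠ k in atTop, ∀ z, IsArgmin (g k) p z → R < ‖z‖ := by
  by_contra hcon
  rw [not_eventually] at hcon
  have hcon' : ∃ᶠ k in atTop, ∃ z, IsArgmin (g k) p z ∧ ‖z‖ ≤ R := by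
    refine hcon.mono fun k hk => ?_
    push Not at hk
    exact hk
  obtain ⟨σ, hσ, hσ'⟩ := extraction_of_frequently_atTop hcon'
  choose z hz hz' using hσ'
  obtain ⟨z0, hz0, τ, hτ, hlim⟩ := (isCompact_closedBall (0 : E m) R).tendsto_subseq
    (x := z) (fun n => by simpa using hz' n)
  have h1 : Tendsto (fun j => g (σ (τ j)) (z (τ j))) atTop (𝓝 (f z0)) :=
    hdiag (g := fun j => g (σ (τ j))) (fun j => hg _)
      (fun x => (h x).comp ((hσ.comp hτ).tendsto_atTop)) hlim
  have h3 : Tendsto (fun j => (inner ℝ p (z (τ j)) : ℝ)) atTop (𝓝 (inner ℝ p z0)) := by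
    have : Continuous (fun z : E m => (inner ℝ p z : ℝ)) := by fun_prop
    exact (this.tendsto z0).comp hlim
  refine hy z0 fun w => ?_
  have h2 : Tendsto (fun j => g (σ (τ j)) w) atTop (𝓝 (f w)) :=
    (h w).comp ((hσ.comp hτ).tendsto_atTop)
  exact le_of_tendsto_of_tendsto' (h1.sub h3) (h2.sub_const _) (fun j => hz (τ j) w)

theorem AL3_sel_nonneg {m : ℕ} {φ f : E m → ℝ} (hφ : ∀ x, 0 ≤ φ x) (p : E m) : 0 ≤ sel φ f p := by
  apply Real.sSup_nonneg
  rintro _ ⟨y, _, rfl⟩
  exact hφ y

theorem AL3_sel_le {m : ℕ} {φ f : E m → ℝ} {M : ℝ} (hM0 : 0 ≤ M) (hM : ∀ x, φ x ≤ M) (p : E m) :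
    sel φ f p ≤ M := by
  apply Real.sSup_le _ hM0
  rintro _ ⟨y, _, rfl⟩
  exact hM y

theorem AL3_sel_ne {m : ℕ} {φ f : E m → ℝ} {p : E m} (h : sel φ f p ≠ 0) :
    ∃ y, IsArgmin f p y ∧ φ y ≠ 0 := by
  by_contra hcon
  push Not at hcon
  apply h
  have h1 : φ '' {y | IsArgmin f p y} ⊆ {0} := by
    rintro _ ⟨y, hy, rfl⟩
    exact hcon y hy
  rcases subset_singleton_iff_eq.1 h1 with h2 | h2
  · rw [sel, h2, Real.sSup_empty]
  · rw [sel, h2, csSup_singleton]

/-- Convergence of the selections. -/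
theorem AL3_tendsto_sel (hdiag : tendsto_diag_stmt) {m : ℕ} {φ : E m → ℝ} {g : ℕ → E m → ℝ}
    {f : E m → ℝ} (hφ : Test φ) (hf : CV f) (hg : ∀ k, CV (g k))
    (h : ∀ x, Tendsto (fun k => g k x) atTop (𝓝 (f x))) {p : E m}
    (hp : ∀ y y', IsArgmin f p y → IsArgmin f p y' → y = y') :
    Tendsto (fun k => sel φ (g k) p) atTop (𝓝 (sel φ f p)) := by
  have hφc : Continuous φ := hφ.1.continuous
  by_cases hex : ∃ y, IsArgmin f p y
  · obtain ⟨y, hy⟩ := hex
    have hu : ∀ y', IsArgmin f p y' → y' = y := fun y' hy' => hp y' y hy' hy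
    have h1 : sel φ f p = φ y := by
      have h2 : {z | IsArgmin f p z} = {y} := by
        ext z
        simp only [mem_ofPred_eq, mem_singleton_iff]
        exact ⟨fun hz => hu z hz, fun hz => hz ▸ hy⟩
      rw [sel, h2, image_singleton, csSup_singleton]
    rw [h1, Metric.tendsto_atTop]
    intro ε hε
    obtain ⟨δ, hδ, hδ'⟩ := Metric.continuousAt_iff.1 (hφc.continuousAt (x := y)) (ε / 2)
      (half_pos hε)
    have hgap := AL3_gap hdiag hf hg h hy hu hδ
    rw [eventually_atTop] at hgap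
    obtain ⟨N, hN⟩ := hgap
    refine ⟨N, fun k hk => ?_⟩
    have h3 := hN k hk
    obtain ⟨z, hz⟩ := AL3_exists (hg k) hδ h3
    have h4 : ∀ w, IsArgmin (g k) p w → dist w y < δ := by
      intro w hw
      by_contra hcon
      push Not at hcon
      rw [dist_eq_norm] at hcon
      have := h3 w hcon
      have := hw y
      linarith
    have h5 : ∀ w, IsArgmin (g k) p w → |φ w - φ y| < ε / 2 := by
      intro w hw
      have := hδ' (h4 w hw)
      rwa [Real.dist_eq] at this
    have h6 : sel φ (g k) p ≤ φ y + ε / 2 := by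
      refine csSup_le (s := φ '' {y | IsArgmin (g k) p y}) ⟨φ z, z, hz, rfl⟩ ?_
      rintro _ ⟨w, hw, rfl⟩
      have := (abs_lt.1 (h5 w hw)).2
      linarith
    have h7 : φ y - ε / 2 ≤ sel φ (g k) p := by
      have h8 : φ z ≤ sel φ (g k) p := by
        have hb : BddAbove (φ '' {y | IsArgmin (g k) p y}) := by
          refine ⟨φ y + ε / 2, ?_⟩
          rintro _ ⟨w, hw, rfl⟩
          have := (abs_lt.1 (h5 w hw)).2
          linarith
        exact le_csSup hb ⟨z, hz, rfl⟩
      have := (abs_lt.1 (h5 z hz)).1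
      linarith
    rw [Real.dist_eq, abs_lt]
    constructor <;> linarith
  · push Not at hex
    have h1 : sel φ f p = 0 := by
      by_contra hne
      obtain ⟨y, hy, -⟩ := AL3_sel_ne hne
      exact hex y hy
    obtain ⟨R, hR⟩ : ∃ R, tsupport φ ⊆ Metric.closedBall 0 R :=
      hφ.2.1.isCompact.isBounded.subset_closedBall 0
    rw [h1]
    apply tendsto_const_nhds.congr'
    filter_upwards [AL3_escape hdiag hg h hex R] with k hk
    by_contra hne
    obtain ⟨y, hy, hy'⟩ := AL3_sel_ne (Ne.symm hne)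
    have h2 := hR (subset_tsupport φ hy')
    rw [mem_closedBall_zero_iff] at h2
    have := hk y hy
    linarith

/-- Uniform bound of the selections. -/
theorem AL3_bound (hlip : loc_lip_stmt) {m : ℕ} {φ : E m → ℝ} {g : ℕ → E m → ℝ}
    {f : E m → ℝ} (hφ : Test φ) (hg : ∀ k, CV (g k))
    (h : ∀ x, Tendsto (fun k => g k x) atTop (𝓝 (f x))) :
    ∃ b : E m → ℝ, Integrable b ∧ ∀ k p, ‖sel φ (g k) p‖ ≤ b p := by
  have hφc : Continuous φ := hφ.1.continuous
  obtain ⟨R, hR⟩ : ∃ R, tsupport φ ⊆ Metric.closedBall 0 R :=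
    hφ.2.1.isCompact.isBounded.subset_closedBall 0
  obtain ⟨M, hM⟩ : ∃ M, ∀ x, |φ x| ≤ M := by
    obtain ⟨M, hM⟩ := hφ.2.1.exists_bound_of_continuous hφc
    exact ⟨M, hM⟩
  have hM0 : 0 ≤ M := (abs_nonneg _).trans (hM 0)
  obtain ⟨L, hL⟩ := hlip hg h (R + 1)
  refine ⟨(Metric.closedBall (0 : E m) (max L 0)).indicator (fun _ => M), ?_, fun k p => ?_⟩
  · rw [integrable_indicator_iff measurableSet_closedBall]
    exact integrableOn_const (isCompact_closedBall _ _).measure_lt_top.ne
  · by_cases h0 : sel φ (g k) p = 0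
    · rw [h0, norm_zero]
      exact indicator_nonneg (fun _ _ => hM0) _
    · obtain ⟨y, hy, hy'⟩ := AL3_sel_ne h0
      have hyR : ‖y‖ ≤ R := by
        have := hR (subset_tsupport φ hy')
        simpa using this
      have hpL : ‖p‖ ≤ max L 0 := by
        rcases (norm_nonneg p).eq_or_lt with h1 | h1
        · rw [← h1]
          exact le_max_right _ _
        · set w : E m := y + (‖p‖⁻¹) • p with hw
          have hn : ‖w - y‖ = 1 := by
            rw [hw, add_sub_cancel_left, norm_smul, norm_inv, norm_norm, inv_mul_cancel₀ h1.ne']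
          have hwR : ‖w‖ ≤ R + 1 := by
            have : ‖w‖ ≤ ‖w - y‖ + ‖y‖ := by
              have := norm_add_le (w - y) y
              simpa using this
            linarith
          have h2 := hL k w y hwR (by linarith)
          rw [hn, mul_one] at h2
          have h3 := (abs_le.1 h2).2
          have h4 := hy w
          have h5 : (inner ℝ p w : ℝ) - inner ℝ p y = ‖p‖ := by
            rw [← inner_sub_right, hw, add_sub_cancel_left, real_inner_smul_right,
              real_inner_self_eq_norm_sq]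
            field_simp
          exact le_max_of_le_left (by linarith)
      rw [indicator_of_mem (by simpa using hpL), Real.norm_eq_abs,
        abs_of_nonneg (AL3_sel_nonneg hφ.2.2 p)]
      exact AL3_sel_le hM0 (fun x => (le_abs_self _).trans (hM x)) p

theorem AL3_normSq {m : ℕ} {c : ℝ} (hc : 0 ≤ c) : CV (fun y : E m => c * ‖y‖ ^ 2) := by
  have h1 : ConvexOn ℝ univ (fun y : E m => ‖y‖) := convexOn_norm convex_univ
  have h2 : ConvexOn ℝ univ (fun y : E m => ‖y‖ ^ 2) := h1.pow (fun _ _ => norm_nonneg _) 2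
  exact h2.smul hc

theorem AL3_c_tendsto : Tendsto (fun k : ℕ => 1 / ((k : ℝ) + 1)) atTop (𝓝 0) :=
  tendsto_one_div_add_atTop_nhds_zero_nat (𝕜 := ℝ)

theorem sel_integrable_of (hun : ae_argmin_unique_stmt) (hal : alexandrov_smooth_stmt)
    (hsm : exists_smooth_stmt) (hlip : loc_lip_stmt) (hdiag : tendsto_diag_stmt) :
    sel_integrable_stmt := by
  intro m φ h hφ hh
  obtain ⟨g, hg, hlim⟩ := hsm hh
  set G : ℕ → E m → ℝ := fun k y => g k y + (1 / ((k : ℝ) + 1)) * ‖y‖ ^ 2 with hG
  have hpos : ∀ k : ℕ, 0 < 1 / ((k : ℝ) + 1) := fun k => by positivity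
  have hGc : ∀ k, CV (G k) := fun k => (hg k).2.add (AL3_normSq (hpos k).le)
  have hGl : ∀ x, Tendsto (fun k => G k x) atTop (𝓝 (h x)) := by
    intro x
    have := (hlim x).add (AL3_c_tendsto.mul_const (‖x‖ ^ 2))
    rw [zero_mul, add_zero] at this
    exact this
  have hGs : ∀ k, ContDiff ℝ ∞ (G k) := by
    intro k
    exact (hg k).1.add (contDiff_const.mul (contDiff_norm_sq ℝ))
  have hmeas : ∀ k, AEStronglyMeasurable (sel φ (G k)) volume := fun k => by
    refine (hal hφ (hGs k) (hpos k) ?_).2.1.aestronglyMeasurable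
    have : (fun y => G k y - 1 / ((k : ℝ) + 1) * ‖y‖ ^ 2) = g k := by
      funext y
      simp [hG]
    rw [this]
    exact (hg k).2
  obtain ⟨b, hb, hbound⟩ := AL3_bound hlip hφ hGc hGl
  have hae : ∀ᵐ p, Tendsto (fun k => sel φ (G k) p) atTop (𝓝 (sel φ h p)) := by
    filter_upwards [hun hh] with p hp
    exact AL3_tendsto_sel hdiag hφ hh hGc hGl hp
  refine hb.mono' (aestronglyMeasurable_of_tendsto_ae atTop hmeas hae) ?_
  filter_upwards [hae] with p hp
  exact le_of_tendsto hp.norm (Eventually.of_forall fun k => hbound k p)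

theorem tendsto_A_of (hun : ae_argmin_unique_stmt) (hint : sel_integrable_stmt)
    (hlip : loc_lip_stmt) (hdiag : tendsto_diag_stmt) :
    tendsto_A_stmt := by
  intro m φ f g hφ hf hg h
  obtain ⟨b, hb, hbound⟩ := AL3_bound hlip hφ hg h
  have hae : ∀ᵐ p, Tendsto (fun k => sel φ (g k) p) atTop (𝓝 (sel φ f p)) := by
    filter_upwards [hun hf] with p hp
    exact AL3_tendsto_sel hdiag hφ hf hg h hp
  exact tendsto_integral_of_dominated_convergence b
    (fun k => (hint hφ (hg k)).aestronglyMeasurable) hb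
    (fun k => Eventually.of_forall fun p => hbound k p) hae

end Pool.Agent.helper83.SC
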