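import Pool.Agent.helper83.SC.Stmt

/-!
SC project, module AL2: the Monge-Ampere measure of a smooth strongly convex function.
-/

open scoped Pointwise ContDiff
open MeasureTheory Set Filter Topology

namespace Pool.Agent.helper83.SC

/-- the gradient map -/
noncomputable def AL2_grad {m : ℕ} (h : E m → ℝ) (x : E m) : E m :=
  (InnerProductSpace.toDual ℝ (E m)).symm (fderiv ℝ h x)

theorem AL2_fderiv_apply {m : ℕ} {h : E m → ℝ} (x v : E m) :
    fderiv ℝ h x v = inner ℝ (AL2_grad h x) v := by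
  unfold AL2_grad
  rw [InnerProductSpace.toDual_symm_apply]

/-- convexity inequality for a differentiable convex function -/
theorem AL2_convex_ineq {m : ℕ} {f : E m → ℝ} (hf : Differentiable ℝ f) (hc : CV f) (x y : E m) :
    f x + fderiv ℝ f x (y - x) ≤ f y := by
  have h1 : HasDerivAt (fun t : ℝ => f (x + t • (y - x))) (fderiv ℝ f x (y - x)) 0 := by
    have h2 : HasFDerivAt f (fderiv ℝ f x) (x + (0 : ℝ) • (y - x)) := by
      simpa using (hf x).hasFDerivAt
    have h3 : HasDerivAt (fun t : ℝ => x + t • (y - x)) (y - x) 0 := by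
      simpa using ((hasDerivAt_id (0 : ℝ)).smul_const (y - x)).const_add x
    exact h2.comp_hasDerivAt (0 : ℝ) h3
  have hcv : ConvexOn ℝ univ (fun t : ℝ => f (x + t • (y - x))) := by
    refine ⟨convex_univ, fun s _ t _ a b ha hb hab => ?_⟩
    have := hc.2 (mem_univ (x + s • (y - x))) (mem_univ (x + t • (y - x))) ha hb hab
    have h4 : a • (x + s • (y - x)) + b • (x + t • (y - x)) = x + (a • s + b • t) • (y - x) := by
      have : (a + b) • x = x := by rw [hab, one_smul]
      calc a • (x + s • (y - x)) + b • (x + t • (y - x))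
          = (a + b) • x + (a * s + b * t) • (y - x) := by module
        _ = _ := by rw [this]; simp
    rw [h4] at this
    exact this
  have h5 := hcv.le_slope_of_hasDerivAt (mem_univ (0 : ℝ)) (mem_univ (1 : ℝ)) zero_lt_one h1
  simp only [slope, vsub_eq_sub, sub_zero, inv_one, one_smul, zero_smul, add_zero,
    add_sub_cancel] at h5
  linarith

/-- the strong convexity inequality -/
theorem AL2_SC {m : ℕ} {h : E m → ℝ} (hh : Differentiable ℝ h) {c : ℝ}
    (hcv : CV (fun y => h y - c * ‖y‖ ^ 2)) (x y : E m) :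
    h x + inner ℝ (AL2_grad h x) (y - x) + c * ‖y - x‖ ^ 2 ≤ h y := by
  have hq : ∀ x : E m, HasFDerivAt (fun y : E m => c * ‖y‖ ^ 2) (c • (2 • innerSL ℝ x)) x := by
    intro x
    exact (hasStrictFDerivAt_norm_sq x).hasFDerivAt.const_mul c
  have hd : Differentiable ℝ (fun y : E m => h y - c * ‖y‖ ^ 2) := by
    intro x
    exact (hh x).sub (hq x).differentiableAt
  have h1 := AL2_convex_ineq hd hcv x y
  have h3 : fderiv ℝ (fun y : E m => h y - c * ‖y‖ ^ 2) x = fderiv ℝ h x - c • (2 • innerSL ℝ x) :=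
    ((hh x).hasFDerivAt.sub (hq x)).fderiv
  rw [h3] at h1
  simp only [ContinuousLinearMap.sub_apply, ContinuousLinearMap.smul_apply, innerSL_apply_apply,
    smul_eq_mul, nsmul_eq_mul, Nat.cast_ofNat, AL2_fderiv_apply] at h1
  have h4 : ‖y - x‖ ^ 2 = ‖y‖ ^ 2 - 2 * inner ℝ x (y - x) - ‖x‖ ^ 2 := by
    have e1 : ‖y‖ ^ 2 = ‖x + (y - x)‖ ^ 2 := by rw [add_sub_cancel]
    rw [e1, norm_add_sq_real]
    ring
  rw [h4]
  linarith

theorem AL2_argmin_of_grad {m : ℕ} {h : E m → ℝ} (hh : Differentiable ℝ h) {c : ℝ} (hc : 0 < c)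
    (hcv : CV (fun y => h y - c * ‖y‖ ^ 2)) (x : E m) :
    IsArgmin h (AL2_grad h x) x := by
  intro z
  have h1 := AL2_SC hh hcv x z
  have h2 : 0 ≤ c * ‖z - x‖ ^ 2 := by positivity
  rw [inner_sub_right] at h1
  linarith

theorem AL2_grad_of_argmin {m : ℕ} {h : E m → ℝ} (hh : Differentiable ℝ h) {p x : E m}
    (hx : IsArgmin h p x) : AL2_grad h x = p := by
  have h1 : IsLocalMin (fun y => h y - innerSL ℝ p y) x := Filter.Eventually.of_forall fun z => by
    simpa only [innerSL_apply_apply] using hx z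
  have h2 := h1.hasFDerivAt_eq_zero ((hh x).hasFDerivAt.sub (innerSL ℝ p).hasFDerivAt)
  apply ext_inner_right ℝ
  intro v
  have h3 := DFunLike.congr_fun h2 v
  simp only [ContinuousLinearMap.sub_apply, innerSL_apply_apply,
    ContinuousLinearMap.zero_apply, AL2_fderiv_apply] at h3
  linarith

theorem AL2_mono {m : ℕ} {h : E m → ℝ} (hh : Differentiable ℝ h) {c : ℝ}
    (hcv : CV (fun y => h y - c * ‖y‖ ^ 2)) (x y : E m) :
    2 * c * ‖y - x‖ ^ 2 ≤ inner ℝ (AL2_grad h y - AL2_grad h x) (y - x) := by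
  have h1 := AL2_SC hh hcv x y
  have h2 := AL2_SC hh hcv y x
  rw [norm_sub_rev x y] at h2
  have h3 : inner ℝ (AL2_grad h y) (x - y) = - inner ℝ (AL2_grad h y) (y - x) := by
    rw [← inner_neg_right, neg_sub]
  rw [h3] at h2
  rw [inner_sub_left]
  linarith

theorem AL2_exists {m : ℕ} {h : E m → ℝ} (hh : Differentiable ℝ h) {c : ℝ} (hc : 0 < c)
    (hcv : CV (fun y => h y - c * ‖y‖ ^ 2)) (p : E m) :
    ∃ y, IsArgmin h p y := by
  have hcont : Continuous (fun y => h y - inner ℝ p y) := by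
    have : Continuous h := hh.continuous
    fun_prop
  set a : E m := AL2_grad h 0 - p
  have hlow : ∀ y : E m, h 0 - ‖a‖ * ‖y‖ + c * ‖y‖ ^ 2 ≤ h y - inner ℝ p y := by
    intro y
    have h1 := AL2_SC hh hcv 0 y
    have h3 : -(‖a‖ * ‖y‖) ≤ inner ℝ a y := (abs_le.1 (abs_real_inner_le_norm a y)).1
    have h6 : inner ℝ a y = inner ℝ (AL2_grad h 0) y - inner ℝ p y := by
      simp only [a, inner_sub_left]
    simp only [sub_zero] at h1
    linarith
  have htend : Tendsto (fun y => h y - inner ℝ p y) (cocompact (E m)) atTop := by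
    have h1 : Tendsto (fun t : ℝ => h 0 - ‖a‖ * t + c * t ^ 2) atTop atTop := by
      have h2 : (fun t : ℝ => h 0 - ‖a‖ * t + c * t ^ 2) =
          fun t => h 0 + t * (c * t - ‖a‖) := by
        funext t; ring
      rw [h2]
      apply tendsto_atTop_add_const_left
      apply Tendsto.atTop_mul_atTop₀ tendsto_id
      apply tendsto_atTop_add_const_right
      exact Tendsto.const_mul_atTop hc tendsto_id
    exact tendsto_atTop_mono hlow (h1.comp (tendsto_norm_cocompact_atTop (E := E m)))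
  obtain ⟨y, hy⟩ := hcont.exists_forall_le htend
  exact ⟨y, hy⟩

theorem AL2_unique {m : ℕ} {h : E m → ℝ} (hh : Differentiable ℝ h) {c : ℝ} (hc : 0 < c)
    (hcv : CV (fun y => h y - c * ‖y‖ ^ 2)) {p y y' : E m}
    (hy : IsArgmin h p y) (hy' : IsArgmin h p y') : y' = y := by
  have h1 := AL2_mono hh hcv y y'
  rw [AL2_grad_of_argmin hh hy, AL2_grad_of_argmin hh hy', sub_self, inner_zero_left] at h1
  by_contra hne
  have h2 : 0 < ‖y' - y‖ := norm_pos_iff.2 (sub_ne_zero.2 hne)
  have : 0 < 2 * c * ‖y' - y‖ ^ 2 := by positivity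
  linarith

theorem AL2_sel {m : ℕ} {φ h : E m → ℝ} (hh : Differentiable ℝ h) {c : ℝ} (hc : 0 < c)
    (hcv : CV (fun y => h y - c * ‖y‖ ^ 2)) {p y : E m}
    (hy : IsArgmin h p y) : sel φ h p = φ y := by
  have : {y | IsArgmin h p y} = {y} := by
    ext y'
    simp only [mem_setOf_eq, mem_singleton_iff]
    exact ⟨fun h => AL2_unique hh hc hcv hy h, fun h => by rw [h]; exact hy⟩
  unfold sel
  rw [this, image_singleton, csSup_singleton]

/-- the derivative of the gradient map -/
noncomputable def AL2_D {m : ℕ} (h : E m → ℝ) (x : E m) : E m →L[ℝ] E m :=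
  ((InnerProductSpace.toDual ℝ (E m)).symm.toContinuousLinearEquiv.toContinuousLinearMap :
    (E m →L[ℝ] ℝ) →L[ℝ] E m).comp (fderiv ℝ (fderiv ℝ h) x)

theorem AL2_hasFDerivAt {m : ℕ} {h : E m → ℝ} (hh : ContDiff ℝ ∞ h) (x : E m) :
    HasFDerivAt (AL2_grad h) (AL2_D h x) x := by
  have h0 : HasFDerivAt (fderiv ℝ h) (fderiv ℝ (fderiv ℝ h) x) x :=
    (((hh.fderiv_right (m := ∞) (by simp)).differentiable (by simp)) x).hasFDerivAt
  exact (((InnerProductSpace.toDual ℝ (E m)).symm.toContinuousLinearEquiv.toContinuousLinearMap :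
    (E m →L[ℝ] ℝ) →L[ℝ] E m).hasFDerivAt).comp x h0

theorem AL2_inner_D {m : ℕ} (h : E m → ℝ) (x v w : E m) :
    inner ℝ (AL2_D h x v) w = fderiv ℝ (fderiv ℝ h) x v w := by
  have : AL2_D h x v = (InnerProductSpace.toDual ℝ (E m)).symm (fderiv ℝ (fderiv ℝ h) x v) := rfl
  rw [this, InnerProductSpace.toDual_symm_apply]

theorem AL2_hess {m : ℕ} {h : E m → ℝ} (hh : ContDiff ℝ ∞ h) (x : E m) (i j : Fin m) :
    hess h x i j = fderiv ℝ (fderiv ℝ h) x (e i) (e j) := by
  have h0 : DifferentiableAt ℝ (fderiv ℝ h) x :=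
    ((hh.fderiv_right (m := ∞) (by simp)).differentiable (by simp)) x
  have h1 : fderiv ℝ (fun y => fderiv ℝ h y (e j)) x = (fderiv ℝ (fderiv ℝ h) x).flip (e j) := by
    rw [fderiv_clm_apply h0 (differentiableAt_const _)]
    simp
  have h2 : hess h x i j = fderiv ℝ (fun y => fderiv ℝ h y (e j)) x (e i) := rfl
  rw [h2, h1]
  rfl

theorem AL2_det {m : ℕ} {h : E m → ℝ} (hh : ContDiff ℝ ∞ h) (x : E m) :
    (AL2_D h x).det = (hess h x).det := by
  have h1 : LinearMap.toMatrix (EuclideanSpace.basisFun (Fin m) ℝ).toBasis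
      (EuclideanSpace.basisFun (Fin m) ℝ).toBasis (AL2_D h x : E m →ₗ[ℝ] E m)
      = (hess h x).transpose := by
    ext i j
    rw [LinearMap.toMatrix_apply, Matrix.transpose_apply, AL2_hess hh]
    have h2 := AL2_inner_D h x (e j) (e i)
    rw [← h2]
    simp only [OrthonormalBasis.coe_toBasis, EuclideanSpace.basisFun_apply,
      OrthonormalBasis.coe_toBasis_repr_apply, EuclideanSpace.basisFun_repr]
    unfold e
    rw [real_inner_comm, EuclideanSpace.inner_single_left]
    simp
  rw [ContinuousLinearMap.det, ← LinearMap.det_toMatrix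
    (EuclideanSpace.basisFun (Fin m) ℝ).toBasis, h1, Matrix.det_transpose]

theorem AL2_quad_nonneg {m : ℕ} {h : E m → ℝ} (hh : ContDiff ℝ ∞ h) {c : ℝ}
    (hcv : CV (fun y => h y - c * ‖y‖ ^ 2)) (x v : E m) :
    2 * c * ‖v‖ ^ 2 ≤ inner ℝ (AL2_D h x v) v := by
  have h1 : HasDerivAt (fun t : ℝ => AL2_grad h (x + t • v)) (AL2_D h x v) 0 := by
    have h2 : HasFDerivAt (AL2_grad h) (AL2_D h x) (x + (0 : ℝ) • v) := by
      simpa using AL2_hasFDerivAt hh x
    have h3 : HasDerivAt (fun t : ℝ => x + t • v) v 0 := by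
      simpa using ((hasDerivAt_id (0 : ℝ)).smul_const v).const_add x
    exact h2.comp_hasDerivAt (0 : ℝ) h3
  have h2 := h1.tendsto_slope
  have h3 : Tendsto (fun t : ℝ => inner ℝ (slope (fun t : ℝ => AL2_grad h (x + t • v)) 0 t) v)
      (𝓝[>] 0) (𝓝 (inner ℝ (AL2_D h x v) v)) := by
    have hcont : Continuous (fun z : E m => (inner ℝ z v : ℝ)) := by fun_prop
    exact (hcont.tendsto _).comp (h2.mono_left (nhdsWithin_mono _ (fun t ht => ne_of_gt ht)))
  refine ge_of_tendsto h3 ?_
  filter_upwards [self_mem_nhdsWithin] with t ht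
  have ht : 0 < t := ht
  have h4 := AL2_mono (hh.differentiable (by simp)) hcv x (x + t • v)
  rw [add_sub_cancel_left, norm_smul, Real.norm_eq_abs, mul_pow, sq_abs,
    real_inner_smul_right] at h4
  simp only [slope, vsub_eq_sub, sub_zero, zero_smul, add_zero]
  rw [real_inner_smul_left]
  have h5 : t * (2 * c * ‖v‖ ^ 2 * t) ≤ t * inner ℝ (AL2_grad h (x + t • v) - AL2_grad h x) v := by
    linarith
  have h6 := le_of_mul_le_mul_left h5 ht
  rw [inv_mul_eq_div, le_div_iff₀ ht]
  exact h6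

theorem AL2_posdef {m : ℕ} {h : E m → ℝ} (hh : ContDiff ℝ ∞ h) {c : ℝ} (hc : 0 < c)
    (hcv : CV (fun y => h y - c * ‖y‖ ^ 2)) (x : E m) :
    (hess h x).PosSemidef := by
  have hsymm : ∀ v w : E m, fderiv ℝ (fderiv ℝ h) x v w = fderiv ℝ (fderiv ℝ h) x w v := by
    intro v w
    refine (hh.contDiffAt.isSymmSndFDerivAt ?_) v w
    rw [minSmoothness_of_isRCLikeNormedField]
    exact WithTop.coe_le_coe.2 le_top
  refine Matrix.PosSemidef.of_dotProduct_mulVec_nonneg ?_ ?_
  · ext i j
    rw [Matrix.conjTranspose_apply, star_trivial, AL2_hess hh, AL2_hess hh, hsymm]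
  · intro v
    have h1 : dotProduct (star v) (Matrix.mulVec (hess h x) v)
        = fderiv ℝ (fderiv ℝ h) x (WithLp.toLp 2 v) (WithLp.toLp 2 v) := by
      have h2 : (WithLp.toLp 2 v : E m) = ∑ i, v i • e i := by
        ext j
        simp [e, Finset.sum_apply, Pi.single_apply]
      conv_rhs => rw [h2]
      simp only [map_sum, map_smul, ContinuousLinearMap.sum_apply, ContinuousLinearMap.smul_apply,
        smul_eq_mul, dotProduct, Matrix.mulVec, star_trivial]
      refine Finset.sum_congr rfl fun i _ => ?_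
      rw [Finset.mul_sum, Finset.mul_sum]
      refine Finset.sum_congr rfl fun j _ => ?_
      rw [AL2_hess hh, hsymm (e i) (e j)]
      ring
    rw [h1, ← AL2_inner_D]
    refine le_trans ?_ (AL2_quad_nonneg hh hcv x _)
    positivity

theorem alexandrov_smooth_of : alexandrov_smooth_stmt := by
  intro m φ h hφ hh c hc hcv
  have hd : Differentiable ℝ h := hh.differentiable (by simp)
  have hex := AL2_exists hd hc hcv
  refine ⟨fun p => ?_, ?_, ?_⟩
  · obtain ⟨y, hy⟩ := hex p
    exact ⟨y, hy, fun y' hy' => AL2_unique hd hc hcv hy hy'⟩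
  · choose Y hY using hex
    have hsel : sel φ h = φ ∘ Y := funext fun p => AL2_sel hd hc hcv (hY p)
    rw [hsel]
    refine hφ.1.continuous.comp ?_
    have hL : ∀ p p' : E m, ‖Y p - Y p'‖ ≤ (1 / c) * ‖p - p'‖ := by
      intro p p'
      have h1 := AL2_mono hd hcv (Y p') (Y p)
      rw [AL2_grad_of_argmin hd (hY p), AL2_grad_of_argmin hd (hY p')] at h1
      have h3 : inner ℝ (p - p') (Y p - Y p') ≤ ‖p - p'‖ * ‖Y p - Y p'‖ :=
        real_inner_le_norm _ _
      rcases (norm_nonneg (Y p - Y p')).eq_or_lt with h5 | h5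
      · rw [← h5]; positivity
      · have h6 : c * ‖Y p - Y p'‖ ≤ ‖p - p'‖ := by
          by_contra h
          push Not at h
          have h7 : 0 ≤ c * ‖Y p - Y p'‖ ^ 2 := by positivity
          nlinarith
        rw [one_div, inv_mul_eq_div, le_div_iff₀ hc]
        linarith
    have : LipschitzWith (Real.toNNReal (1 / c)) Y := by
      apply LipschitzWith.of_dist_le_mul
      intro p p'
      rw [dist_eq_norm, dist_eq_norm, Real.coe_toNNReal _ (by positivity)]
      exact hL p p'
    exact this.continuous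
  · have hinj : InjOn (AL2_grad h) univ := by
      intro x _ y _ hxy
      have h1 := AL2_argmin_of_grad hd hc hcv x
      have h2 := AL2_argmin_of_grad hd hc hcv y
      rw [hxy] at h1
      exact AL2_unique hd hc hcv h2 h1
    have himg : AL2_grad h '' univ = univ := by
      apply eq_univ_of_forall
      intro p
      obtain ⟨y, hy⟩ := hex p
      exact ⟨y, mem_univ _, AL2_grad_of_argmin hd hy⟩
    have h1 := integral_image_eq_integral_abs_det_fderiv_smul (volume : Measure (E m))
      MeasurableSet.univ (fun x _ => (AL2_hasFDerivAt hh x).hasFDerivWithinAt) hinj (sel φ h)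
    rw [himg, setIntegral_univ, setIntegral_univ] at h1
    unfold A
    rw [h1]
    congr 1
    funext x
    rw [AL2_det hh, abs_of_nonneg (AL2_posdef hh hc hcv x).det_nonneg,
      AL2_sel hd hc hcv (AL2_argmin_of_grad hd hc hcv x)]
    simp only [smul_eq_mul]
    ring

end Pool.Agent.helper83.SC
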